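import Pool.Agent.R251.TS.Sys
import Pool.Agent.R518.B.Gen

set_option autoImplicit false

/-!
# Many `k` with distinct odd `q(n, k) = φ(k) + φ(n - k) / 2 + 1`
-/

namespace Pool.Agent.R251.TS

open Polynomial Finset Filter
open Pool.Agent.R518.G
open Pool.Agent.W123.RP Pool.Agent.H373R2.T7 Pool.Agent.W123.RU Pool.Agent.W123.RU.Poly
open Pool.Agent.TH464.PW Pool.Agent.TH464.PO Pool.Agent.Y879.GL
open Pool.Agent.R490.Sg (D1)

theorem rough_ex : ∃ r : ℕ, 2 ≤ r ∧ ∀ᶠ n : ℕ in atTop, ∀ (F : Fin 3 → ℤ[X]) (g : ℕ → ℕ → Prop),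
    US 3 1 (((n : ℤ) ^ 2 : ℤ) : ℝ) ((n : ℝ) ^ (1 / 2 : ℝ)) F → Rep F g →
    De g ⌊(n : ℝ) ^ (1 / (r : ℝ))⌋₊ ≤ 64 * D1 ⌊(n : ℝ) ^ (1 / (r : ℝ))⌋₊ →
    ∀ u Y : ℕ, (n : ℝ) ^ (1 / 3 : ℝ) ≤ Y →
      ∃ x, u < x ∧ x ≤ u + Y ∧ Ro g ⌊(n : ℝ) ^ (1 / (r : ℝ))⌋₊ x := by
  obtain ⟨r0, h0⟩ := gapG 3 1 2 (1 / 2) (1 / 3) (by norm_num) (by norm_num) 1 0 (1 / 2) (by norm_num)
  refine ⟨max r0 2, le_max_right _ _, ?_⟩
  filter_upwards [h0 (max r0 2) (le_max_left _ _) 64, eventually_ge_atTop 1] with n hn hn1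
  intro F g hF hR hD u Y hY
  have h := hn F g hF hR _ rfl hD u Y hY 1 0 (Or.inl le_rfl)
  revert h hD
  generalize ⌊(n : ℝ) ^ (1 / ((max r0 2 : ℕ) : ℝ))⌋₊ = y
  intro hD h
  have hpos : 0 < De g y := by
    rw [← rep_V hR]
    exact Vq_pos _ (fun p hp => us_adm (hgt_up hn1 hF) p hp) y
  have hn' : (1 : ℝ) ≤ n := by exact_mod_cast hn1
  have hY1 : (1 : ℝ) ≤ Y := (Real.one_le_rpow hn' (by norm_num)).trans hY
  rw [Finset.sum_range_one] at h
  simp only [Nat.cast_zero, zero_mul, neg_zero, Real.exp_zero, pow_zero, Nat.factorial_zero, Nat.cast_one,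
    div_one, mul_one] at h
  have h1 : 0 < (Dk g y 1 0 u Y : ℝ) := by
    have h3 := (abs_le.1 h).1
    have h4 : 0 < (Y : ℝ) * De g y := mul_pos (by linarith) hpos
    linarith
  have h2 : 0 < Dk g y 1 0 u Y := by exact_mod_cast h1
  unfold Dk at h2
  obtain ⟨x, hx⟩ := Finset.card_pos.1 h2
  simp only [mem_filter, mem_Ioc] at hx
  exact ⟨x, hx.1.1, hx.1.2, hx.2.1⟩

/-! ## totients of rough numbers -/

lemma one_sub_sum_le (s : Finset ℕ) (a : ℕ → ℝ) (h0 : ∀ p ∈ s, 0 ≤ a p) (h1 : ∀ p ∈ s, a p ≤ 1) :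
    1 - ∑ p ∈ s, a p ≤ ∏ p ∈ s, (1 - a p) := by
  induction s using Finset.induction_on with
  | empty => simp
  | insert p s hp ih =>
    rw [Finset.sum_insert hp, Finset.prod_insert hp]
    have i1 := ih (fun q hq => h0 q (mem_insert_of_mem hq)) (fun q hq => h1 q (mem_insert_of_mem hq))
    have i2 : ∏ q ∈ s, (1 - a q) ≤ 1 := Finset.prod_le_one
      (fun q hq => by linarith [h1 q (mem_insert_of_mem hq)])
      (fun q hq => by linarith [h0 q (mem_insert_of_mem hq)])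
    have i3 := h0 p (mem_insert_self _ _)
    nlinarith

lemma card_pf (m : ℕ) (hm : 1 ≤ m) : m.primeFactors.card ≤ Nat.log 2 m := by
  have h1 : 2 ^ m.primeFactors.card ≤ ∏ p ∈ m.primeFactors, p :=
    Finset.pow_card_le_prod _ _ _ (fun p hp => (Nat.prime_of_mem_primeFactors hp).two_le)
  have h2 := h1.trans (Nat.le_of_dvd (by omega) (Nat.prod_primeFactors_dvd m))
  exact Nat.le_log_of_pow_le (by norm_num) h2

lemma tot_rough (m y : ℕ) (hm : 1 ≤ m) (hy : 1 ≤ y) (h : ∀ p : ℕ, p.Prime → p ≤ y → ¬ p ∣ m) :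
    (m : ℝ) - m * ((Nat.log 2 m : ℝ) / y) ≤ (m.totient : ℝ) := by
  have hy0 : (0 : ℝ) < y := by exact_mod_cast (by omega : 0 < y)
  have h1 : (m.totient : ℝ) = m * ∏ p ∈ m.primeFactors, (1 - 1 / (p : ℝ)) := by
    have h2 := Nat.totient_eq_mul_prod_factors m
    have h3 : ((m.totient : ℚ) : ℝ) = ((m * ∏ p ∈ m.primeFactors, (1 - (p : ℚ)⁻¹) : ℚ) : ℝ) := by rw [h2]
    push_cast at h3
    rw [h3]
    simp only [one_div]
  rw [h1]
  have h3 := one_sub_sum_le m.primeFactors (fun p => 1 / (p : ℝ)) (fun p _ => by positivity) (fun p hp => by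
    have : (1 : ℝ) ≤ p := by exact_mod_cast (Nat.prime_of_mem_primeFactors hp).one_lt.le
    rw [div_le_one (by linarith)]; exact this)
  have h4 : ∑ p ∈ m.primeFactors, 1 / (p : ℝ) ≤ (Nat.log 2 m : ℝ) / y := by
    calc ∑ p ∈ m.primeFactors, 1 / (p : ℝ) ≤ ∑ _p ∈ m.primeFactors, 1 / (y : ℝ) := by
          apply Finset.sum_le_sum
          intro p hp
          have hpp := Nat.prime_of_mem_primeFactors hp
          have : y ≤ p := by
            by_contra hc
            exact h p hpp (by omega) (Nat.dvd_of_mem_primeFactors hp)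
          apply one_div_le_one_div_of_le hy0
          exact_mod_cast this
      _ = (m.primeFactors.card : ℝ) / y := by rw [sum_const, nsmul_eq_mul]; ring
      _ ≤ _ := by
          apply div_le_div_of_nonneg_right _ hy0.le
          exact_mod_cast card_pf m hm
  have hm0 : (0 : ℝ) ≤ m := Nat.cast_nonneg m
  have h5 := mul_le_mul_of_nonneg_left h3 hm0
  have h6 := mul_le_mul_of_nonneg_left h4 hm0
  linarith

lemma tot_rough' (n m y : ℕ) (hm : 1 ≤ m) (hmn : m ≤ n) (hy : 1 ≤ y)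
    (h : ∀ p : ℕ, p.Prime → p ≤ y → ¬ p ∣ m) :
    (m : ℝ) - n * ((Nat.log 2 n : ℝ) / y) ≤ (m.totient : ℝ) := by
  have h1 := tot_rough m y hm hy h
  have hy0 : (0 : ℝ) < y := by exact_mod_cast (by omega : 0 < y)
  have h2 : (Nat.log 2 m : ℝ) / y ≤ (Nat.log 2 n : ℝ) / y := by
    apply div_le_div_of_nonneg_right _ hy0.le
    exact_mod_cast Nat.log_mono_right hmn
  have h3 : (m : ℝ) * ((Nat.log 2 m : ℝ) / y) ≤ n * ((Nat.log 2 n : ℝ) / y) := by
    apply mul_le_mul _ h2 (by positivity) (by positivity)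
    exact_mod_cast hmn
  linarith

lemma four_dvd (l : ℕ) (hl : l % 8 = 5) : 4 ∣ l.totient := by
  by_cases h1 : ∃ p : ℕ, p.Prime ∧ p ∣ l ∧ p % 4 = 1
  · obtain ⟨p, hp, hpl, hp4⟩ := h1
    have h2 := Nat.totient_dvd_of_dvd hpl
    rw [Nat.totient_prime hp] at h2
    exact dvd_trans (by omega) h2
  · push Not at h1
    obtain ⟨p, hp, hpl⟩ := Nat.exists_prime_and_dvd (show l ≠ 1 by omega)
    have hp2 : p ≠ 2 := by
      rintro rfl
      omega
    have hpo : p % 2 = 1 := by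
      rcases hp.eq_two_or_odd with h | h
      · exact absurd h hp2
      · exact h
    have hp3 : p % 4 = 3 := by
      have := h1 p hp hpl
      omega
    obtain ⟨a, m, hm, hlm⟩ := Nat.exists_eq_pow_mul_and_not_dvd (show l ≠ 0 by omega) p hp.ne_one
    by_cases hm1 : m = 1
    · exfalso
      rw [hm1, mul_one] at hlm
      rcases Nat.even_or_odd a with ha | ha
      · obtain ⟨b, hb⟩ := ha
        have h3 : l = p ^ b * p ^ b := by rw [hlm, hb, pow_add]
        have h4 : (p ^ b) % 2 = 1 := by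
          have : Odd (p ^ b) := (Nat.odd_iff.2 hpo).pow
          exact Nat.odd_iff.1 this
        set w := p ^ b
        have h5 : (w * w) % 8 = 1 := by
          have h6 : w % 8 = 1 ∨ w % 8 = 3 ∨ w % 8 = 5 ∨ w % 8 = 7 := by omega
          rw [Nat.mul_mod]
          rcases h6 with h | h | h | h <;> rw [h]
        omega
      · obtain ⟨b, hb⟩ := ha
        have h3 : l % 4 = 3 := by
          rw [hlm, hb, pow_succ, pow_mul, Nat.mul_mod, Nat.pow_mod]
          have h4 : p ^ 2 % 4 = 1 := by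
            rw [Nat.pow_mod, hp3]
          rw [h4, one_pow, hp3]
          norm_num
        omega
    · obtain ⟨p', hp', hpm⟩ := Nat.exists_prime_and_dvd hm1
      have hne : p ≠ p' := by
        rintro rfl
        exact hm hpm
      have hpl' : p' ∣ l := by
        rw [hlm]
        exact hpm.mul_left _
      have hp2' : p' ≠ 2 := by
        rintro rfl
        omega
      have hpo' : p' % 2 = 1 := by
        rcases hp'.eq_two_or_odd with h | h
        · exact absurd h hp2'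
        · exact h
      have hcop : Nat.Coprime p p' := (Nat.coprime_primes hp hp').2 hne
      have h2 := Nat.totient_dvd_of_dvd (hcop.mul_dvd_of_dvd_of_dvd hpl hpl')
      rw [Nat.totient_mul hcop, Nat.totient_prime hp, Nat.totient_prime hp'] at h2
      have h3 : 2 * 2 ∣ (p - 1) * (p' - 1) := Nat.mul_dvd_mul (by omega) (by omega)
      exact dvd_trans h3 h2

/-! ## the windows -/

theorem windows (r A : ℕ) (hr : 2 ≤ r) : ∀ᶠ n : ℕ in atTop, ∃ Z Y : ℕ, (n : ℝ) ^ (1 / 3 : ℝ) ≤ Y ∧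
    100 * (⌈(Real.log n) ^ A⌉₊ * Z) ≤ n ∧
    (Y : ℝ) + 20 * (n * ((Nat.log 2 n : ℝ) / ⌊(n : ℝ) ^ (1 / (r : ℝ))⌋₊)) < Z ∧
    1 ≤ ⌊(n : ℝ) ^ (1 / (r : ℝ))⌋₊ := by
  have hr0 : (0 : ℝ) < r := by exact_mod_cast (by omega : 0 < r)
  have hr2 : (2 : ℝ) ≤ r := by exact_mod_cast hr
  have hlog : Tendsto (fun n : ℕ => Real.log (n : ℝ)) atTop atTop :=
    Real.tendsto_log_atTop.comp tendsto_natCast_atTop_atTop
  have h1 := (isLittleO_log_rpow_rpow_atTop ((A : ℝ) + 1) (show (0 : ℝ) < 1 / r by positivity)).def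
    (show (0 : ℝ) < 1 / 40000 by norm_num)
  filter_upwards [tendsto_natCast_atTop_atTop.eventually h1, hlog.eventually_ge_atTop 1,
    eventually_ge_atTop 3] with n h2 h3 h4
  set L := Real.log n with hL
  have hn1 : (3 : ℝ) ≤ n := by exact_mod_cast h4
  have hn0 : (0 : ℝ) < n := by linarith
  rw [Real.norm_of_nonneg (by positivity), Real.norm_of_nonneg (by positivity)] at h2
  have e1 : L ^ ((A : ℝ) + 1) = L ^ (A + 1) := by
    have : ((A : ℝ) + 1) = ((A + 1 : ℕ) : ℝ) := by push_cast; ring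
    rw [this, Real.rpow_natCast]
  rw [e1] at h2
  set w := (n : ℝ) ^ (1 / (r : ℝ)) with hw
  have hLA : (1 : ℝ) ≤ L ^ A := one_le_pow₀ h3
  have hLA1 : L ≤ L ^ (A + 1) := by
    calc L = 1 * L := (one_mul _).symm
      _ ≤ L ^ A * L := mul_le_mul_of_nonneg_right hLA (by linarith)
      _ = L ^ (A + 1) := (pow_succ _ _).symm
  have hw1 : 40000 * L ^ (A + 1) ≤ w := by linarith
  have hw0 : 40000 ≤ w := by linarith
  set y := ⌊w⌋₊ with hy
  have hyw : w / 2 ≤ y := by
    have := Nat.sub_one_lt_floor w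
    linarith
  have hy1 : 1 ≤ y := by
    have : (1 : ℝ) ≤ y := by linarith
    exact_mod_cast this
  have hy0 : (0 : ℝ) < y := by linarith
  set S := ⌈L ^ A⌉₊ with hS
  have hS1 : (S : ℝ) ≤ 2 * L ^ A := by
    have := Nat.ceil_lt_add_one (show (0 : ℝ) ≤ L ^ A by positivity)
    linarith
  have hS2 : L ^ A ≤ S := Nat.le_ceil _
  have hS0 : (0 : ℝ) < S := by linarith
  have hS0' : 0 < S := by exact_mod_cast hS0
  -- `n ^ (1/3) ≤ n / w`
  have hnw : (n : ℝ) / w = (n : ℝ) ^ (1 - 1 / (r : ℝ)) := by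
    rw [Real.rpow_sub hn0, Real.rpow_one]
  have h13 : (n : ℝ) ^ (1 / 3 : ℝ) ≤ n / w := by
    rw [hnw]
    apply Real.rpow_le_rpow_of_exponent_le (by linarith)
    have : 1 / (r : ℝ) ≤ 1 / 2 := one_div_le_one_div_of_le (by norm_num) hr2
    linarith
  have hnw1 : 1 ≤ (n : ℝ) / w := (Real.one_le_rpow (by linarith) (by norm_num)).trans h13
  have hlg : (Nat.log 2 n : ℝ) ≤ 2 * L := by
    have h5 : (2 : ℝ) ^ (Nat.log 2 n) ≤ n := by exact_mod_cast Nat.pow_log_le_self 2 (by omega)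
    have h6 := Real.log_le_log (by positivity) h5
    rw [Real.log_pow, ← hL] at h6
    have h7 := Real.log_two_gt_d9
    have h8 : (0 : ℝ) ≤ Nat.log 2 n := Nat.cast_nonneg _
    nlinarith
  have hE : (n : ℝ) * ((Nat.log 2 n : ℝ) / y) ≤ 4 * L * (n / w) := by
    have h5 : (Nat.log 2 n : ℝ) / y ≤ 2 * L / (w / 2) :=
      div_le_div₀ (by linarith) hlg (by linarith) hyw
    calc (n : ℝ) * ((Nat.log 2 n : ℝ) / y) ≤ n * (2 * L / (w / 2)) :=
          mul_le_mul_of_nonneg_left h5 hn0.le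
      _ = 4 * L * (n / w) := by field_simp; ring
  refine ⟨n / (100 * S), ⌈(n : ℝ) ^ (1 / 3 : ℝ)⌉₊, Nat.le_ceil _, ?_, ?_, hy1⟩
  · have := Nat.div_mul_le_self n (100 * S)
    calc 100 * (S * (n / (100 * S))) = n / (100 * S) * (100 * S) := by ring
      _ ≤ n := this
  · have h5 : (⌈(n : ℝ) ^ (1 / 3 : ℝ)⌉₊ : ℝ) < n / w + 1 := by
      have := Nat.ceil_lt_add_one (show (0 : ℝ) ≤ (n : ℝ) ^ (1 / 3 : ℝ) by positivity)
      linarith
    have h6 : (n : ℝ) / (100 * S) - 1 < ((n / (100 * S) : ℕ) : ℝ) := by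
      have h7 : n < (n / (100 * S) + 1) * (100 * S) := by
        have := Nat.lt_div_mul_add (a := n) (b := 100 * S) (by positivity)
        linarith
      have h8 : (n : ℝ) < (((n / (100 * S) : ℕ) : ℝ) + 1) * (100 * S) := by exact_mod_cast h7
      rw [sub_lt_iff_lt_add, div_lt_iff₀ (by positivity)]
      exact h8
    have h9 : 90 * L * (n / w) ≤ n / (100 * S) := by
      rw [le_div_iff₀ (by positivity)]
      have h10 : 90 * L * (n / w) * (100 * S) ≤ 90 * L * (n / w) * (100 * (2 * L ^ A)) := by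
        apply mul_le_mul_of_nonneg_left (by linarith) (by positivity)
      have h11 : 90 * L * (n / w) * (100 * (2 * L ^ A)) = 18000 * L ^ (A + 1) * (n / w) := by
        rw [pow_succ]; ring
      have h12 : 18000 * L ^ (A + 1) * (n / w) ≤ w * (n / w) := by
        apply mul_le_mul_of_nonneg_right _ (by positivity)
        have : (0 : ℝ) ≤ L ^ (A + 1) := by positivity
        linarith
      have h13 : w * (n / w) = n := by field_simp
      linarith
    have h14 : n / w ≤ L * (n / w) := by nlinarith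
    nlinarith

/-- the number `q(n, k)` -/
def q (n k : ℕ) : ℕ := k.totient + (n - k).totient / 2 + 1

/-! ## even `n` -/

/-- leading coefficients -/
def alE : Fin 3 → ℤ := ![8, 8, 6]

/-- constant coefficients -/
def beE (n c : ℤ) : Fin 3 → ℤ := ![2 * c + 1 - n, -(2 * n - 1 - 2 * c), 1]

/-- the divisibility predicate -/
def DvE (n c : ℤ) (p z : ℕ) : Prop :=
  (p : ℤ) ∣ 8 * z + 2 * c + 1 - n ∨ (p : ℤ) ∣ 2 * n - 1 - 2 * c - 8 * z ∨ (p : ℤ) ∣ 6 * z + 1

lemma repE (n c : ℤ) : Rep (l3 alE (beE n c)) (DvE n c) := by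
  intro p x
  unfold Poly.Q DvE
  rw [exists_fin3]
  simp only [l3_eval]
  unfold alE beE
  simp only [Matrix.cons_val_zero, Matrix.cons_val_one, Matrix.cons_val]
  have e1 : (8 : ℤ) * x + (2 * c + 1 - n) = 8 * x + 2 * c + 1 - n := by ring
  have e2 : (8 : ℤ) * x + -(2 * n - 1 - 2 * c) = -(2 * n - 1 - 2 * c - 8 * x) := by ring
  rw [e1, e2, dvd_neg]

lemma cop8 (b : ℤ) (hb : b % 2 = 1) : IsCoprime (8 : ℤ) b := by
  have : (8 : ℤ) = 2 ^ 3 := by norm_num
  rw [this]
  apply IsCoprime.pow_left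
  exact ⟨-(b / 2), 1, by omega⟩

lemma usE (n c : ℤ) (hn : 100 ≤ n) (he : n % 2 = 0) (hc : c = 1 ∨ c = 3) (U : ℝ) (hU : 8 * U < n) :
    US 3 1 ((n ^ 2 : ℤ) : ℝ) U (l3 alE (beE n c)) := by
  have hc1 : 1 ≤ c ∧ c ≤ 3 := by omega
  obtain ⟨hc1, hc3⟩ := hc1
  have hsq : 100 * n ≤ n ^ 2 := by nlinarith
  apply l3_us
  · nlinarith
  · exact forall_fin3 (by show (1 : ℤ) ≤ 8; norm_num) (by show (1 : ℤ) ≤ 8; norm_num)
      (by show (1 : ℤ) ≤ 6; norm_num)
  · exact forall_fin3 (by show (8 : ℤ) ≤ _; nlinarith) (by show (8 : ℤ) ≤ _; nlinarith)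
      (by show (6 : ℤ) ≤ _; nlinarith)
  · refine forall_fin3 ?_ ?_ ?_
    · show |2 * c + 1 - n| ≤ _
      rw [abs_le]; constructor <;> linarith
    · show |-(2 * n - 1 - 2 * c)| ≤ _
      rw [abs_le]; constructor <;> linarith
    · show |(1 : ℤ)| ≤ _
      rw [abs_one]; nlinarith
  · refine forall_fin3 ?_ ?_ ?_
    · exact cop8 _ (by show (2 * c + 1 - n) % 2 = 1; omega)
    · exact cop8 _ (by show (-(2 * n - 1 - 2 * c)) % 2 = 1; omega)
    · exact isCoprime_one_right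
  · refine ⟨0, forall_fin3 ?_ ?_ ?_⟩
    · show ¬ (2 : ℤ) ∣ 8 * 0 + (2 * c + 1 - n)
      omega
    · show ¬ (2 : ℤ) ∣ 8 * 0 + -(2 * n - 1 - 2 * c)
      omega
    · show ¬ (2 : ℤ) ∣ 6 * 0 + 1
      norm_num
  · have key : ∃ z : ℤ, ¬ (3 : ℤ) ∣ 8 * z + (2 * c + 1 - n) ∧ ¬ (3 : ℤ) ∣ 8 * z + -(2 * n - 1 - 2 * c) := by
      by_cases h0 : ¬ (3 : ℤ) ∣ 8 * 0 + (2 * c + 1 - n) ∧ ¬ (3 : ℤ) ∣ 8 * 0 + -(2 * n - 1 - 2 * c)
      · exact ⟨0, h0⟩
      by_cases h1 : ¬ (3 : ℤ) ∣ 8 * 1 + (2 * c + 1 - n) ∧ ¬ (3 : ℤ) ∣ 8 * 1 + -(2 * n - 1 - 2 * c)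
      · exact ⟨1, h1⟩
      · exact ⟨2, by omega, by omega⟩
    obtain ⟨z, hz1, hz2⟩ := key
    refine ⟨z, forall_fin3 hz1 hz2 ?_⟩
    show ¬ (3 : ℤ) ∣ 6 * z + 1
    omega
  · intro i i' t ht htU
    have h4 : 8 * (t : ℤ) < n := by
      have : 8 * (t : ℝ) < n := by linarith
      exact_mod_cast this
    have ht' : (1 : ℤ) ≤ t := by exact_mod_cast ht
    revert i'
    revert i
    refine forall_fin3 ?_ ?_ ?_
    · refine forall_fin3 ?_ ?_ ?_
      · show (8 : ℤ) = 8 → 2 * c + 1 - n ≠ 2 * c + 1 - n + 8 * t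
        intro _; omega
      · show (8 : ℤ) = 8 → 2 * c + 1 - n ≠ -(2 * n - 1 - 2 * c) + 8 * t
        intro _; omega
      · show (8 : ℤ) = 6 → _
        intro h; omega
    · refine forall_fin3 ?_ ?_ ?_
      · show (8 : ℤ) = 8 → -(2 * n - 1 - 2 * c) ≠ 2 * c + 1 - n + 8 * t
        intro _; omega
      · show (8 : ℤ) = 8 → -(2 * n - 1 - 2 * c) ≠ -(2 * n - 1 - 2 * c) + 8 * t
        intro _; omega
      · show (8 : ℤ) = 6 → _
        intro h; omega
    · refine forall_fin3 ?_ ?_ ?_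
      · show (6 : ℤ) = 8 → _
        intro h; omega
      · show (6 : ℤ) = 8 → _
        intro h; omega
      · show (6 : ℤ) = 6 → (1 : ℤ) ≠ 1 + 6 * t
        intro _; omega

lemma DeE_le (n c : ℤ) (y : ℕ) : De (DvE n c) y ≤ 64 * D1 y := by
  have h := De_le_a 6 1 (by norm_num) (g := DvE n c) (fun p m hp hd => Or.inr (Or.inr (by
    exact_mod_cast hd))) y
  norm_num at h
  exact h

lemma half_lt8 (n : ℕ) (hn : 100 ≤ n) : 8 * ((n : ℝ) ^ (1 / 2 : ℝ)) < n := by
  have hn' : (100 : ℝ) ≤ n := by exact_mod_cast hn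
  rw [← Real.sqrt_eq_rpow]
  have hs := Real.sq_sqrt (by linarith : (0 : ℝ) ≤ n)
  have hs1 : (10 : ℝ) ≤ √(n : ℝ) := by
    rw [show (10 : ℝ) = √100 by rw [show (100 : ℝ) = 10 ^ 2 by norm_num, Real.sqrt_sq (by norm_num)]]
    exact Real.sqrt_le_sqrt (by linarith)
  nlinarith

/-- the configurations for even `n` -/
theorem conf_even (A : ℕ) : ∀ᶠ n : ℕ in atTop, Even n → ∃ K : ℕ → ℕ,
    (∀ s < ⌈(Real.log n) ^ A⌉₊, 1 ≤ K s ∧ K s + 2 < n ∧ Odd (q n (K s)) ∧ n ≤ 10 * q n (K s)) ∧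
    Set.InjOn (fun s => q n (K s)) (range ⌈(Real.log n) ^ A⌉₊ : Finset ℕ) := by
  obtain ⟨r, hr, h0⟩ := rough_ex
  filter_upwards [h0, windows r A hr, eventually_ge_atTop 10000] with n hn hw hn2
  intro he
  obtain ⟨Z, Y, hY, hSZ, hZ, hy1⟩ := hw
  obtain ⟨m0, hm0⟩ := he
  revert hn hZ hy1
  generalize ⌊(n : ℝ) ^ (1 / (r : ℝ))⌋₊ = y
  intro hn hZ hy1
  set S := ⌈(Real.log n) ^ A⌉₊ with hS
  obtain ⟨c, hc, hcn⟩ : ∃ c : ℕ, (c = 1 ∨ c = 3) ∧ (2 * n - 1 - 2 * c) % 8 = 5 := by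
    by_cases h : n % 4 = 0
    · exact ⟨1, Or.inl rfl, by omega⟩
    · exact ⟨3, Or.inr rfl, by omega⟩
  have hus := usE n c (by exact_mod_cast (by omega : 100 ≤ n)) (by omega)
    (by rcases hc with h | h <;> subst h <;> norm_num) _ (half_lt8 n (by omega))
  have hx : ∀ s : ℕ, ∃ z, n / 6 + s * Z < z ∧ z ≤ n / 6 + s * Z + Y ∧ Ro (DvE n c) y z := fun s =>
    hn _ (DvE n c) (by exact_mod_cast hus) (repE n c) (DeE_le n c y) (n / 6 + s * Z) Y hY
  choose z hz1 hz2 hz3 using hx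
  set E : ℝ := n * ((Nat.log 2 n : ℝ) / y) with hE
  have hE0 : 0 ≤ E := by positivity
  have hYZ : Y < Z := by
    have : (Y : ℝ) < Z := by linarith
    exact_mod_cast this
  have hEZ : 20 * E < Z - Y := by linarith
  have hsZ : ∀ s < S, s * Z + Z ≤ S * Z := fun s hs => by
    calc s * Z + Z = (s + 1) * Z := by ring
      _ ≤ S * Z := Nat.mul_le_mul_right _ hs
  -- sizes
  have hsize : ∀ s < S, ∃ k l : ℕ, k + l = n ∧ (k : ℤ) = 8 * z s + 2 * c + 1 - n ∧
      (l : ℤ) = 2 * n - 1 - 2 * c - 8 * z s ∧ n ≤ 4 * k ∧ n ≤ 4 * l := by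
    intro s hs
    have h1 := hsZ s hs
    have h2 := hz1 s
    have h3 := hz2 s
    have h4 : 100 * (s * Z + Z) ≤ n := by linarith
    have hc1 : 1 ≤ c ∧ c ≤ 3 := by omega
    refine ⟨8 * z s + 2 * c + 1 - n, 2 * n - 1 - 2 * c - 8 * z s, ?_, ?_, ?_, ?_, ?_⟩ <;> omega
  choose! k l hkl hk hl hkn hln using hsize
  have hrk : ∀ s < S, ∀ p : ℕ, p.Prime → p ≤ y → ¬ p ∣ k s := by
    intro s hs p hp hpy hd
    apply hz3 s p hp hpy
    left
    rw [← hk s hs]
    exact_mod_cast hd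
  have hrl : ∀ s < S, ∀ p : ℕ, p.Prime → p ≤ y → ¬ p ∣ l s := by
    intro s hs p hp hpy hd
    apply hz3 s p hp hpy
    right; left
    rw [← hl s hs]
    exact_mod_cast hd
  have hq : ∀ s < S, 4 ∣ (l s).totient ∧ Even (k s).totient ∧
      2 * q n (k s) = 2 * (k s).totient + (l s).totient + 2 ∧ Odd (q n (k s)) := by
    intro s hs
    have e1 : n - k s = l s := by have := hkl s hs; omega
    have h1 : 4 ∣ (l s).totient := by
      apply four_dvd
      have := hl s hs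
      omega
    have h2 : Even (k s).totient := Nat.totient_even (by have := hkn s hs; omega)
    have h3 : q n (k s) = (k s).totient + (l s).totient / 2 + 1 := by
      unfold q
      rw [e1]
    refine ⟨h1, h2, by omega, ?_⟩
    rw [Nat.odd_iff, h3]
    obtain ⟨b, hb⟩ := h2
    omega
  have hbd : ∀ s < S, (2 * q n (k s) : ℝ) ≤ n + k s + 2 ∧ (n : ℝ) + k s + 2 - 3 * E ≤ 2 * q n (k s) := by
    intro s hs
    obtain ⟨-, -, h3, -⟩ := hq s hs
    have h3' : (2 : ℝ) * q n (k s) = 2 * (k s).totient + (l s).totient + 2 := by exact_mod_cast h3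
    have hkl' : (k s : ℝ) + l s = n := by exact_mod_cast hkl s hs
    have h4 : ((k s).totient : ℝ) ≤ k s := by exact_mod_cast Nat.totient_le _
    have h5 : ((l s).totient : ℝ) ≤ l s := by exact_mod_cast Nat.totient_le _
    have h6 := tot_rough' n (k s) y (by have := hkn s hs; omega) (by have := hkl s hs; omega) hy1 (hrk s hs)
    have h7 := tot_rough' n (l s) y (by have := hln s hs; omega) (by have := hkl s hs; omega) hy1 (hrl s hs)
    constructor <;> linarith
  refine ⟨k, fun s hs => ?_, ?_⟩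
  · refine ⟨by have := hkn s hs; omega, by have := hln s hs; have := hkl s hs; omega, (hq s hs).2.2.2, ?_⟩
    have h1 := (hbd s hs).2
    have h2 : (Z : ℝ) * 100 ≤ n := by
      have h3 := hsZ s hs
      have : Z * 100 ≤ n := by nlinarith
      exact_mod_cast this
    have h4 : (n : ℝ) ≤ 10 * q n (k s) := by
      have : (0 : ℝ) ≤ k s := Nat.cast_nonneg _
      have : (0 : ℝ) ≤ Y := Nat.cast_nonneg _
      linarith
    exact_mod_cast h4
  · have hlt : ∀ s s' : ℕ, s < s' → s' < S → q n (k s) < q n (k s') := by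
      intro s s' hss hs'
      have h1 := (hbd s (by omega)).1
      have h2 := (hbd s' hs').2
      have h3 := hk s (by omega)
      have h4 := hk s' hs'
      have h5 := hz2 s
      have h6 := hz1 s'
      have h7 : s * Z + Z ≤ s' * Z := by
        calc s * Z + Z = (s + 1) * Z := by ring
          _ ≤ s' * Z := Nat.mul_le_mul_right _ hss
      have h8 : k s + (Z - Y) ≤ k s' := by omega
      have h9 : (k s : ℝ) + (Z - Y) ≤ k s' := by
        have h10 : ((k s + (Z - Y) : ℕ) : ℝ) ≤ k s' := by exact_mod_cast h8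
        rw [Nat.cast_add, Nat.cast_sub hYZ.le] at h10
        exact h10
      have h11 : (2 : ℝ) * q n (k s) < 2 * q n (k s') := by linarith
      have h12 : (q n (k s) : ℝ) < q n (k s') := by linarith
      exact_mod_cast h12
    intro s hs s' hs' hss
    rw [mem_coe, mem_range] at hs hs'
    simp only at hss
    rcases lt_trichotomy s s' with h | h | h
    · exact absurd hss (hlt s s' h hs').ne
    · exact h
    · exact absurd hss (hlt s' s h hs).ne'

/-! ## odd `n` -/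

lemma fits_odd (n : ℕ) (hn : 8 ≤ n) (ho : Odd n) : ∃ t : ℕ, (t = 1 ∨ t = 2) ∧ Fits n (t + 1) ∧ 2 ^ (t + 1) = 4 * t := by
  by_cases h1 : n % 3 = 1
  · exact ⟨2, Or.inr rfl, Or.inr ⟨by norm_num, by norm_num; omega, ho, by norm_num; omega⟩, by norm_num⟩
  · exact ⟨1, Or.inl rfl, Or.inr ⟨le_rfl, by norm_num; omega, ho, by norm_num; omega⟩, by norm_num⟩

/-- the configurations for odd `n` -/
theorem conf_odd (A : ℕ) : ∀ᶠ n : ℕ in atTop, Odd n → ∃ K : ℕ → ℕ,
    (∀ s < ⌈(Real.log n) ^ A⌉₊, 1 ≤ K s ∧ K s + 2 < n ∧ Odd (q n (K s)) ∧ n ≤ 10 * q n (K s)) ∧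
    Set.InjOn (fun s => q n (K s)) (range ⌈(Real.log n) ^ A⌉₊ : Finset ℕ) := by
  obtain ⟨r, hr, h0⟩ := rough_ex
  filter_upwards [h0, windows r A hr, eventually_ge_atTop 10000] with n hn hw hn2
  intro ho
  obtain ⟨Z, Y, hY, hSZ, hZ, hy1⟩ := hw
  obtain ⟨t, ht, hf, ht2⟩ := fits_odd n (by omega) ho
  revert hn hZ hy1
  generalize ⌊(n : ℝ) ^ (1 / (r : ℝ))⌋₊ = y
  intro hn hZ hy1
  set S := ⌈(Real.log n) ^ A⌉₊ with hS
  have hx : ∀ s : ℕ, ∃ z, n / 50 + s * Z < z ∧ z ≤ n / 50 + s * Z + Y ∧ Ro (Dv n (t + 1)) y z := fun s =>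
    hn _ (Dv n (t + 1)) (us n (t + 1) (by omega) hf _ (half_lt n (by omega))) (rep n (t + 1))
      (by
        have h1 := De_le n (t + 1) hf y
        have h2 : 0 ≤ D1 y := by
          unfold Pool.Agent.R490.Sg.D1
          apply Finset.prod_nonneg
          intro p hp
          have hpp : p.Prime := (mem_filter.1 hp).2
          have hp2 : (2 : ℝ) ≤ p := by exact_mod_cast hpp.two_le
          have h2 : (1 : ℝ) / p ≤ 1 / 2 := one_div_le_one_div_of_le (by norm_num) hp2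
          linarith
        linarith) (n / 50 + s * Z) Y hY
  choose z hz1 hz2 hz3 using hx
  set E : ℝ := n * ((Nat.log 2 n : ℝ) / y) with hE
  have hE0 : 0 ≤ E := by positivity
  have hYZ : Y < Z := by
    have : (Y : ℝ) < Z := by linarith
    exact_mod_cast this
  have hEZ : 20 * E < Z - Y := by linarith
  have hsZ : ∀ s < S, s * Z + Z ≤ S * Z := fun s hs => by
    calc s * Z + Z = (s + 1) * Z := by ring
      _ ≤ S * Z := Nat.mul_le_mul_right _ hs
  have ht' : 1 ≤ t ∧ t ≤ 2 := by omega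
  have hsize : ∀ s < S, ∃ k l : ℕ, k + 4 * t * l = n ∧ l = 2 * z s + 1 ∧ n ≤ 4 * k ∧ 10 ≤ l := by
    intro s hs
    have h1 := hsZ s hs
    have h2 := hz1 s
    have h3 := hz2 s
    have h4 : 100 * (s * Z + Z) ≤ n := by linarith
    refine ⟨n - 4 * t * (2 * z s + 1), 2 * z s + 1, ?_, rfl, ?_, ?_⟩
    · rcases ht with h | h <;> subst h <;> omega
    · rcases ht with h | h <;> subst h <;> omega
    · omega
  choose! k l hkl hl hkn hln using hsize
  have htp : (2 : ℤ) ^ (t + 1) = 4 * t := by exact_mod_cast ht2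
  have hrk : ∀ s < S, ∀ p : ℕ, p.Prime → p ≤ y → ¬ p ∣ k s := by
    intro s hs p hp hpy hd
    apply hz3 s p hp hpy
    left
    unfold kk
    rw [if_neg (by omega)]
    have e1 : (n : ℤ) - 2 ^ (t + 1) - 2 ^ (t + 1 + 1) * z s = k s := by
      have h1 : (k s : ℤ) + 4 * t * l s = n := by exact_mod_cast hkl s hs
      have h2 : (l s : ℤ) = 2 * z s + 1 := by exact_mod_cast hl s hs
      rw [pow_succ (2 : ℤ) (t + 1), htp, ← h1, h2]
      ring
    rw [e1]
    exact_mod_cast hd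
  have hrl : ∀ s < S, ∀ p : ℕ, p.Prime → p ≤ y → ¬ p ∣ l s := by
    intro s hs p hp hpy hd
    apply hz3 s p hp hpy
    right; left
    unfold ll
    rw [if_neg (by omega)]
    have h2 : (l s : ℤ) = 2 * z s + 1 := by exact_mod_cast hl s hs
    rw [← h2]
    exact_mod_cast hd
  have hq : ∀ s < S, q n (k s) = (k s).totient + t * (l s).totient + 1 ∧ Odd (q n (k s)) := by
    intro s hs
    have e1 : n - k s = 4 * t * l s := by have := hkl s hs; omega
    have hlo : l s % 2 = 1 := by rw [hl s hs]; omega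
    have h2 : Even (k s).totient := Nat.totient_even (by have := hkn s hs; omega)
    have h3 : Even (l s).totient := Nat.totient_even (by have := hln s hs; omega)
    have e2 : (4 * t * l s).totient = 2 * t * (l s).totient := by
      have hcop : Nat.Coprime (4 * t) (l s) := by
        have h4 : Nat.Coprime 2 (l s) := Nat.coprime_two_left.2 (Nat.odd_iff.2 hlo)
        rcases ht with h | h <;> subst h
        · exact Nat.Coprime.pow_left 2 h4
        · exact Nat.Coprime.pow_left 3 h4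
      rw [Nat.totient_mul hcop]
      have h5 : (4 * t).totient = 2 * t := by
        rcases ht with h | h <;> subst h <;> decide
      rw [h5]
    have h4 : q n (k s) = (k s).totient + t * (l s).totient + 1 := by
      unfold q
      rw [e1, e2]
      have : 2 * t * (l s).totient / 2 = t * (l s).totient := by
        rw [mul_assoc]
        exact Nat.mul_div_cancel_left _ (by norm_num)
      rw [this]
    refine ⟨h4, ?_⟩
    rw [h4]
    exact (h2.add (h3.mul_left t)).add_one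
  have htr : (1 : ℝ) ≤ t ∧ (t : ℝ) ≤ 2 := ⟨by exact_mod_cast ht'.1, by exact_mod_cast ht'.2⟩
  obtain ⟨htr1, htr2⟩ := htr
  have hbd : ∀ s < S, (q n (k s) : ℝ) ≤ n - 3 * (t * l s) + 1 ∧
      (n : ℝ) - 3 * (t * l s) + 1 - 3 * E ≤ q n (k s) := by
    intro s hs
    obtain ⟨h3, -⟩ := hq s hs
    have h3' : (q n (k s) : ℝ) = (k s).totient + t * (l s).totient + 1 := by exact_mod_cast h3
    have hkl' : (k s : ℝ) + 4 * t * l s = n := by exact_mod_cast hkl s hs
    have h4 : ((k s).totient : ℝ) ≤ k s := by exact_mod_cast Nat.totient_le _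
    have h5 : ((l s).totient : ℝ) ≤ l s := by exact_mod_cast Nat.totient_le _
    have hln' : l s ≤ n := by
      have := hkl s hs
      nlinarith
    have h6 := tot_rough' n (k s) y (by have := hkn s hs; omega) (by have := hkl s hs; omega) hy1 (hrk s hs)
    have h7 := tot_rough' n (l s) y (by have := hln s hs; omega) hln' hy1 (hrl s hs)
    have h8 : (t : ℝ) * (l s).totient ≤ t * l s := mul_le_mul_of_nonneg_left h5 (by linarith)
    have h9 : (t : ℝ) * (l s - E) ≤ t * (l s).totient := mul_le_mul_of_nonneg_left h7 (by linarith)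
    constructor
    · linarith
    · nlinarith
  refine ⟨k, fun s hs => ?_, ?_⟩
  · have hkl1 := hkl s hs
    have hln1 := hln s hs
    refine ⟨by have := hkn s hs; omega, by nlinarith, (hq s hs).2, ?_⟩
    have h1 := (hbd s hs).2
    have h2 : (Z : ℝ) * 100 ≤ n := by
      have h3 := hsZ s hs
      have : Z * 100 ≤ n := by nlinarith
      exact_mod_cast this
    have hkn' : (n : ℝ) ≤ 4 * k s := by exact_mod_cast hkn s hs
    have hkl' : (k s : ℝ) + 4 * t * l s = n := by exact_mod_cast hkl s hs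
    have h4 : (n : ℝ) ≤ 10 * q n (k s) := by
      have : (0 : ℝ) ≤ Y := Nat.cast_nonneg _
      have : (0 : ℝ) ≤ (t : ℝ) * l s := by positivity
      nlinarith
    exact_mod_cast h4
  · have hlt : ∀ s s' : ℕ, s < s' → s' < S → q n (k s') < q n (k s) := by
      intro s s' hss hs'
      have h1 := (hbd s (by omega)).2
      have h2 := (hbd s' hs').1
      have h3 := hl s (by omega)
      have h4 := hl s' hs'
      have h5 := hz2 s
      have h6 := hz1 s'
      have h7 : s * Z + Z ≤ s' * Z := by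
        calc s * Z + Z = (s + 1) * Z := by ring
          _ ≤ s' * Z := Nat.mul_le_mul_right _ hss
      have h8 : l s + (Z - Y) ≤ l s' := by omega
      have h9 : (l s : ℝ) + (Z - Y) ≤ l s' := by
        have h10 : ((l s + (Z - Y) : ℕ) : ℝ) ≤ l s' := by exact_mod_cast h8
        rw [Nat.cast_add, Nat.cast_sub hYZ.le] at h10
        exact h10
      have h10 : (t : ℝ) * (l s + (Z - Y)) ≤ t * l s' := mul_le_mul_of_nonneg_left h9 (by linarith)
      have h13 : (Z : ℝ) - Y ≤ t * (Z - Y) := by nlinarith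
      have h11 : (q n (k s') : ℝ) < q n (k s) := by nlinarith
      exact_mod_cast h11
    intro s hs s' hs' hss
    rw [mem_coe, mem_range] at hs hs'
    simp only at hss
    rcases lt_trichotomy s s' with h | h | h
    · exact absurd hss (hlt s s' h hs').ne'
    · exact h
    · exact absurd hss (hlt s' s h hs).ne

/-- **Many `k` with distinct odd `q(n, k)`.** -/
theorem conf (A : ℕ) : ∀ᶠ n : ℕ in atTop, ∃ K : ℕ → ℕ,
    (∀ s < ⌈(Real.log n) ^ A⌉₊, 1 ≤ K s ∧ K s + 2 < n ∧ Odd (q n (K s)) ∧ n ≤ 10 * q n (K s)) ∧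
    Set.InjOn (fun s => q n (K s)) (range ⌈(Real.log n) ^ A⌉₊ : Finset ℕ) := by
  filter_upwards [conf_even A, conf_odd A] with n h1 h2
  rcases Nat.even_or_odd n with h | h
  · exact h1 h
  · exact h2 h

/-! ## primes -/

/-- the `m`-th prime, `pr 1 = 2` -/
noncomputable def pr (m : ℕ) : ℕ := Nat.nth Nat.Prime (m - 1)

theorem pr_prime (m : ℕ) : (pr m).Prime := Nat.prime_nth_prime _

theorem pr_step (m : ℕ) (hm : 2 ≤ m) : pr m + 2 ≤ pr (m + 1) := by
  have hinf := Nat.infinite_setOfPred_prime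
  have h1 : pr m < pr (m + 1) := by
    unfold pr
    apply Nat.nth_strictMono hinf
    omega
  have h2 : Nat.nth Nat.Prime 0 < pr m := by
    unfold pr
    apply Nat.nth_strictMono hinf
    omega
  have h3 : 2 ≤ Nat.nth Nat.Prime 0 := (Nat.prime_nth_prime 0).two_le
  have h4 : (pr m) % 2 = 1 := by
    rcases (pr_prime m).eq_two_or_odd with h | h
    · omega
    · exact h
  have h5 : (pr (m + 1)) % 2 = 1 := by
    rcases (pr_prime (m + 1)).eq_two_or_odd with h | h
    · omega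
    · exact h
  omega

theorem pr_lb (m : ℕ) (hm : 2 ≤ m) (d : ℕ) : pr m + 2 * d ≤ pr (m + d) := by
  induction d with
  | zero => simp
  | succ d ih =>
    have := pr_step (m + d) (by omega)
    have e : m + (d + 1) = m + d + 1 := by ring
    rw [e]
    omega

theorem pr_odd (m : ℕ) (hm : 2 ≤ m) : (pr m) % 2 = 1 := by
  have hinf := Nat.infinite_setOfPred_prime
  have h2 : Nat.nth Nat.Prime 0 < pr m := by
    unfold pr
    apply Nat.nth_strictMono hinf
    omega
  have h3 : 2 ≤ Nat.nth Nat.Prime 0 := (Nat.prime_nth_prime 0).two_le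
  rcases (pr_prime m).eq_two_or_odd with h | h
  · omega
  · exact h

theorem pr_ub : ∀ᶠ n : ℕ in atTop, ∀ i ≤ 2 * n, pr i ≤ n ^ 3 := by
  filter_upwards [eventually_ge_atTop 100] with n hn
  intro i hi
  have hnr : (100 : ℝ) ≤ n := by exact_mod_cast hn
  have hpi := Chebyshev.pi_ge (n ^ 3)
  have hlog2 : (0.69 : ℝ) < Real.log 2 := by
    have := Real.log_two_gt_d9
    linarith
  have hln : Real.log n ≤ n := by
    have := Real.log_le_sub_one_of_pos (show (0 : ℝ) < n by linarith)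
    linarith
  have hln0 : 0 < Real.log n := Real.log_pos (by linarith)
  have hl3 : Real.log ((n ^ 3 : ℕ) : ℝ) = 3 * Real.log n := by
    push_cast
    rw [Real.log_pow]
    norm_num
  have hl4 : Real.log (((n ^ 3 : ℕ) : ℝ) + 1) ≤ 4 * n := by
    have h1 : ((n ^ 3 : ℕ) : ℝ) + 1 ≤ (n : ℝ) ^ 4 := by
      push_cast
      have h2 : (1 : ℝ) ≤ (n : ℝ) ^ 3 := one_le_pow₀ (by linarith)
      have h3 : (n : ℝ) ^ 4 = n ^ 3 * n := by ring
      nlinarith
    have h2 := Real.log_le_log (by positivity) h1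
    rw [Real.log_pow] at h2
    push_cast at h2
    push_cast
    linarith
  have hgt : (2 * n : ℝ) < (((n ^ 3 : ℕ) : ℝ) * Real.log 2 - Real.log (((n ^ 3 : ℕ) : ℝ) + 1)) /
      Real.log ((n ^ 3 : ℕ) : ℝ) := by
    rw [lt_div_iff₀ (by rw [hl3]; linarith), hl3]
    have h1 : 2 * (n : ℝ) * (3 * Real.log n) ≤ 2 * n * (3 * n) := by gcongr
    have h2 : ((n ^ 3 : ℕ) : ℝ) * 0.69 ≤ ((n ^ 3 : ℕ) : ℝ) * Real.log 2 := by gcongr
    have h3 : (n : ℝ) ^ 3 = n * n * n := by ring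
    push_cast at h2 hl4 ⊢
    nlinarith [mul_pos (show (0 : ℝ) < n by linarith) (show (0 : ℝ) < n by linarith)]
  have hlt : 2 * n < Nat.primeCounting (n ^ 3) := by
    have h1 : ((2 * n : ℕ) : ℝ) < (Nat.primeCounting (n ^ 3) : ℝ) := by
      push_cast
      exact lt_of_lt_of_le hgt hpi
    exact_mod_cast h1
  have h5 : pr i < n ^ 3 + 1 := by
    unfold pr
    apply Nat.nth_lt_of_lt_count
    show i - 1 < Nat.primeCounting (n ^ 3)
    omega
  omega

end Pool.Agent.R251.TS
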