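import Pool.Agent.R518.B.Sys2

set_option autoImplicit false

/-!
# Three linear forms; the system of `k`, the odd part of `n - k` and `q(n, k)`
-/

namespace Pool.Agent.R251.TS

open Polynomial Finset Filter
open Pool.Agent.R518.G
open Pool.Agent.W123.RP Pool.Agent.H373R2.T7 Pool.Agent.W123.RU Pool.Agent.W123.RU.Poly
open Pool.Agent.TH464.PW Pool.Agent.TH464.PO Pool.Agent.Y879.GL

/-- the forms `α i x + β i` -/
noncomputable def l3 (α β : Fin 3 → ℤ) : Fin 3 → ℤ[X] := fun i => lf (α i) (β i)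

lemma l3_eval (α β : Fin 3 → ℤ) (i : Fin 3) (x : ℤ) : (l3 α β i).eval x = α i * x + β i := lf_eval _ _ _

lemma l3_us (α β : Fin 3 → ℤ) (H : ℤ) (hH : 1 ≤ H) (hα : ∀ i, 1 ≤ α i) (hαH : ∀ i, α i ≤ H)
    (hb : ∀ i, |β i| ≤ H) (hco : ∀ i, IsCoprime (α i) (β i))
    (h2 : ∃ x : ℤ, ∀ i, ¬ (2 : ℤ) ∣ α i * x + β i) (h3 : ∃ x : ℤ, ∀ i, ¬ (3 : ℤ) ∣ α i * x + β i)
    (U : ℝ) (htr : ∀ i j, ∀ t : ℕ, 1 ≤ t → (t : ℝ) ≤ U → α i = α j → β i ≠ β j + α i * (t : ℤ)) :
    US 3 1 (H : ℝ) U (l3 α β) where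
  irr := fun i => lf_irr _ _ (by have := hα i; omega) (hco i)
  deg := fun i => by
    show (lf (α i) (β i)).natDegree ≠ 0
    rw [lf_deg _ _ (by have := hα i; omega)]; norm_num
  degD := fun i => (lf_deg _ _ (by have := hα i; omega)).le
  hgt := fun i n => by
    have key : |((lf (α i) (β i)).coeff n : ℤ)| ≤ H := by
      rw [lf_coeff]
      split_ifs
      · exact hb i
      · rw [abs_of_nonneg (by have := hα i; omega)]; exact hαH i
      · simp only [abs_zero]; linarith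
    exact_mod_cast key
  adm := fun p hp => by
    by_cases hp2 : p = 2
    · subst hp2
      obtain ⟨x, hx⟩ := h2
      exact adm_int _ 2 hp x (fun i => by rw [l3_eval]; exact_mod_cast hx i)
    by_cases hp3 : p = 3
    · subst hp3
      obtain ⟨x, hx⟩ := h3
      exact adm_int _ 3 hp x (fun i => by rw [l3_eval]; exact_mod_cast hx i)
    · by_contra hcon
      push Not at hcon
      choose f hf using hcon
      have hpp : Prime (p : ℤ) := Nat.prime_iff_prime_int.1 hp
      have hp4 : 4 ≤ p := by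
        have h2 := hp.two_le
        omega
      have hinj : Set.InjOn f (range p : Finset ℕ) := by
        intro m hm m' hm' hmm
        rw [mem_coe, mem_range] at hm hm'
        have h1 := hf m
        have h2 := hf m'
        rw [← hmm] at h2
        rw [l3_eval] at h1 h2
        have h3 := dvd_sub h1 h2
        have e3 : (α (f m) * (m : ℤ) + β (f m)) - (α (f m) * m' + β (f m)) = α (f m) * ((m : ℤ) - m') := by ring
        rw [e3] at h3
        rcases hpp.dvd_or_dvd h3 with h4 | h4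
        · exfalso
          have h5 : (p : ℤ) ∣ β (f m) := (Int.dvd_add_right (dvd_mul_of_dvd_left h4 _)).1 h1
          exact hpp.not_isUnit ((hco (f m)).isUnit_of_dvd' h4 h5)
        · by_contra hne
          have h5 : ((m : ℤ) - m') ≠ 0 := by omega
          have h6 := Int.le_of_dvd (abs_pos.2 h5) ((dvd_abs _ _).2 h4)
          have h7 : |(m : ℤ) - m'| < p := by
            rw [abs_lt]
            constructor <;> omega
          omega
      have h1 := Finset.card_le_card_of_injOn f (s := range p) (t := univ) (fun _ _ => mem_coe.2 (mem_univ _)) hinj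
      rw [card_range, card_univ, Fintype.card_fin] at h1
      omega
  tr := fun i j t ht htU ha => by
    rcases lf_assoc _ _ _ _ _ ha with h | h
    · exact htr i j t ht htU h.1 (by have := h.2; rw [h.1]; linarith)
    · have h1 := h.1
      have h2 := hα i
      have h3 := hα j
      omega

lemma l3_noAs (α β : Fin 3 → ℤ) (hα : ∀ i, 1 ≤ α i) (E : Finset ℕ) (U : ℝ)
    (htr : ∀ i j, ∀ t : ℕ, 1 ≤ t → t ∉ E → α i = α j → β i ≠ β j + α i * (t : ℤ)) :
    NoAs (l3 α β) E U := by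
  intro i j t ht _ htE ha
  rcases lf_assoc _ _ _ _ _ ha with h | h
  · exact htr i j t ht htE h.1 (by have := h.2; rw [h.1]; linarith)
  · have h1 := h.1
    have h2 := hα i
    have h3 := hα j
    omega

/-! ## the system -/

/-- the summand `k`: for `j = 0` the number `2 x - n + 1`, for `j ≥ 2` the number `n - 2 ^ j (2 x + 1)` -/
def kk (n j x : ℕ) : ℤ := if j = 0 then 2 * x - n + 1 else n - 2 ^ j - 2 ^ (j + 1) * x

/-- the number `l` with `n = k + 2 ^ j l` -/
def ll (n j x : ℕ) : ℤ := if j = 0 then 2 * n - 1 - 2 * x else 2 * x + 1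

/-- the value of `q(n, k) = φ(k) + φ(n - k) / 2 + 1` when `k` and `l` are primes -/
def qq (n j x : ℕ) : ℤ := if j = 0 then x else n - 2 ^ j - 3 * 2 ^ (j - 1) * x

/-- the admissible `j`: `j = 0` for even `n`, and `j ≥ 2` with `2 ^ j ≤ n`, `3 ∤ n - 2 ^ j` for odd `n` -/
def Fits (n j : ℕ) : Prop :=
  (j = 0 ∧ Even n) ∨ (2 ≤ j ∧ 2 ^ j ≤ n ∧ Odd n ∧ ¬ (3 : ℤ) ∣ n - 2 ^ j)

/-- leading coefficients -/
def al (j : ℕ) : Fin 3 → ℤ := if j = 0 then ![1, 2, 2] else ![2, 2 ^ (j + 1), 3 * 2 ^ (j - 1)]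

/-- constant coefficients -/
def be (n j : ℕ) : Fin 3 → ℤ :=
  if j = 0 then ![0, -((n : ℤ) - 1), -(2 * (n : ℤ) - 1)] else ![1, -((n : ℤ) - 2 ^ j), -((n : ℤ) - 2 ^ j)]

lemma exists_fin3 {P : Fin 3 → Prop} : (∃ i, P i) ↔ P 0 ∨ P 1 ∨ P 2 := by
  constructor
  · rintro ⟨i, hi⟩
    fin_cases i
    · exact Or.inl hi
    · exact Or.inr (Or.inl hi)
    · exact Or.inr (Or.inr hi)
  · rintro (h | h | h)
    · exact ⟨0, h⟩
    · exact ⟨1, h⟩
    · exact ⟨2, h⟩

lemma forall_fin3 {P : Fin 3 → Prop} (h0 : P 0) (h1 : P 1) (h2 : P 2) : ∀ i, P i := by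
  intro i
  fin_cases i
  · exact h0
  · exact h1
  · exact h2

/-- the divisibility predicate -/
def Dv (n j l x : ℕ) : Prop := (l : ℤ) ∣ kk n j x ∨ (l : ℤ) ∣ ll n j x ∨ (l : ℤ) ∣ qq n j x

lemma rep (n j : ℕ) : Rep (l3 (al j) (be n j)) (Dv n j) := by
  intro p x
  unfold Poly.Q Dv
  rw [exists_fin3]
  simp only [l3_eval]
  unfold al be kk ll qq
  by_cases hj : j = 0
  · simp only [hj, if_true, Matrix.cons_val_zero, Matrix.cons_val_one, Matrix.cons_val]
    have e1 : (2 : ℤ) * x + -((n : ℤ) - 1) = 2 * x - n + 1 := by ring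
    have e2 : (2 : ℤ) * x + -(2 * (n : ℤ) - 1) = -(2 * n - 1 - 2 * x) := by ring
    rw [e1, e2, dvd_neg, one_mul, add_zero]
    tauto
  · simp only [hj, if_false, Matrix.cons_val_zero, Matrix.cons_val_one, Matrix.cons_val]
    have e1 : (2 : ℤ) ^ (j + 1) * x + -((n : ℤ) - 2 ^ j) = -((n : ℤ) - 2 ^ j - 2 ^ (j + 1) * x) := by ring
    have e2 : (3 : ℤ) * 2 ^ (j - 1) * x + -((n : ℤ) - 2 ^ j) = -((n : ℤ) - 2 ^ j - 3 * 2 ^ (j - 1) * x) := by
      ring
    rw [e1, e2, dvd_neg, dvd_neg]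
    tauto

lemma half_ne (j : ℕ) (hj : 2 ≤ j) : (2 : ℤ) ^ (j + 1) = 4 * 2 ^ (j - 1) ∧ (2 : ℤ) ^ j = 2 * 2 ^ (j - 1) ∧
    (2 : ℤ) ≤ 2 ^ (j - 1) ∧ Even ((2 : ℤ) ^ (j - 1)) := by
  obtain ⟨i, rfl⟩ : ∃ i, j = i + 2 := ⟨j - 2, by omega⟩
  have h1 : i + 2 - 1 = i + 1 := by omega
  rw [h1]
  have h2 : (1 : ℤ) ≤ 2 ^ i := one_le_pow₀ (by norm_num)
  refine ⟨by ring, by ring, by rw [pow_succ]; linarith, ⟨2 ^ i, by ring⟩⟩

lemma us (n j : ℕ) (hn : 10 ≤ n) (hf : Fits n j) (U : ℝ) (hU : 2 * U < n) :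
    US 3 1 (((n : ℤ) ^ 2 : ℤ) : ℝ) U (l3 (al j) (be n j)) := by
  have hn' : (10 : ℤ) ≤ n := by exact_mod_cast hn
  rcases hf with ⟨rfl, he⟩ | ⟨hj, hjn, ho, h3⟩
  · obtain ⟨m, hm⟩ := he
    have hm' : (n : ℤ) = m + m := by exact_mod_cast hm
    have ea : al 0 = ![1, 2, 2] := if_pos rfl
    have eb : be n 0 = ![0, -((n : ℤ) - 1), -(2 * (n : ℤ) - 1)] := if_pos rfl
    rw [ea, eb]
    apply l3_us
    · nlinarith
    · exact forall_fin3 (by norm_num) (by norm_num) (by show (1 : ℤ) ≤ 2; norm_num)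
    · exact forall_fin3 (by show (1 : ℤ) ≤ _; nlinarith) (by show (2 : ℤ) ≤ _; nlinarith)
        (by show (2 : ℤ) ≤ _; nlinarith)
    · refine forall_fin3 ?_ ?_ ?_
      · show |(0 : ℤ)| ≤ _
        rw [abs_zero]; positivity
      · show |-((n : ℤ) - 1)| ≤ _
        rw [abs_neg, abs_of_nonneg (by linarith)]; nlinarith
      · show |-(2 * (n : ℤ) - 1)| ≤ _
        rw [abs_neg, abs_of_nonneg (by linarith)]; nlinarith
    · refine forall_fin3 ?_ ?_ ?_
      · show IsCoprime (1 : ℤ) 0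
        exact isCoprime_one_left
      · show IsCoprime (2 : ℤ) (-((n : ℤ) - 1))
        exact ⟨m, 1, by rw [hm']; ring⟩
      · show IsCoprime (2 : ℤ) (-(2 * (n : ℤ) - 1))
        exact ⟨n, 1, by ring⟩
    · refine ⟨1, forall_fin3 ?_ ?_ ?_⟩
      · show ¬ (2 : ℤ) ∣ 1 * 1 + 0
        norm_num
      · show ¬ (2 : ℤ) ∣ 2 * 1 + -((n : ℤ) - 1)
        omega
      · show ¬ (2 : ℤ) ∣ 2 * 1 + -(2 * (n : ℤ) - 1)
        omega
    · by_cases h : (n : ℤ) % 3 = 0
      · refine ⟨2, forall_fin3 ?_ ?_ ?_⟩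
        · show ¬ (3 : ℤ) ∣ 1 * 2 + 0
          norm_num
        · show ¬ (3 : ℤ) ∣ 2 * 2 + -((n : ℤ) - 1)
          omega
        · show ¬ (3 : ℤ) ∣ 2 * 2 + -(2 * (n : ℤ) - 1)
          omega
      · refine ⟨1, forall_fin3 ?_ ?_ ?_⟩
        · show ¬ (3 : ℤ) ∣ 1 * 1 + 0
          norm_num
        · show ¬ (3 : ℤ) ∣ 2 * 1 + -((n : ℤ) - 1)
          omega
        · show ¬ (3 : ℤ) ∣ 2 * 1 + -(2 * (n : ℤ) - 1)
          omega
    · intro i i' t ht htU
      have h4 : 2 * (t : ℤ) < n := by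
        have : 2 * (t : ℝ) < n := by linarith
        exact_mod_cast this
      have ht' : (1 : ℤ) ≤ t := by exact_mod_cast ht
      revert i'
      revert i
      refine forall_fin3 ?_ ?_ ?_
      · refine forall_fin3 ?_ ?_ ?_
        · show (1 : ℤ) = 1 → (0 : ℤ) ≠ 0 + 1 * t
          intro _; omega
        · show (1 : ℤ) = 2 → _
          intro h; omega
        · show (1 : ℤ) = 2 → _
          intro h; omega
      · refine forall_fin3 ?_ ?_ ?_
        · show (2 : ℤ) = 1 → _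
          intro h; omega
        · show (2 : ℤ) = 2 → -((n : ℤ) - 1) ≠ -((n : ℤ) - 1) + 2 * t
          intro _; omega
        · show (2 : ℤ) = 2 → -((n : ℤ) - 1) ≠ -(2 * (n : ℤ) - 1) + 2 * t
          intro _; omega
      · refine forall_fin3 ?_ ?_ ?_
        · show (2 : ℤ) = 1 → _
          intro h; omega
        · show (2 : ℤ) = 2 → -(2 * (n : ℤ) - 1) ≠ -((n : ℤ) - 1) + 2 * t
          intro _; omega
        · show (2 : ℤ) = 2 → -(2 * (n : ℤ) - 1) ≠ -(2 * (n : ℤ) - 1) + 2 * t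
          intro _; omega
  · have hj0 : j ≠ 0 := by omega
    have ea : al j = ![2, 2 ^ (j + 1), 3 * 2 ^ (j - 1)] := if_neg hj0
    have eb : be n j = ![1, -((n : ℤ) - 2 ^ j), -((n : ℤ) - 2 ^ j)] := if_neg hj0
    obtain ⟨g1, g2, g3, g4⟩ := half_ne j hj
    have hjn' : (2 : ℤ) ^ j ≤ n := by exact_mod_cast hjn
    rw [ea, eb]
    set w : ℤ := 2 ^ (j - 1) with hw
    rw [g2] at hjn' h3
    rw [g1, g2]
    have hodd : Odd ((n : ℤ) - 2 * w) := by
      have : Odd (n : ℤ) := by exact_mod_cast ho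
      exact this.sub_even (even_two_mul _)
    obtain ⟨v, hv⟩ := hodd
    obtain ⟨w', hw'⟩ := g4
    have c2 : ∀ s : ℤ, IsCoprime (2 ^ s.toNat : ℤ) ((n : ℤ) - 2 * w) := by
      intro s
      apply IsCoprime.pow_left
      exact ⟨-v, 1, by rw [hv]; ring⟩
    apply l3_us
    · nlinarith
    · exact forall_fin3 (by norm_num) (by show (1 : ℤ) ≤ 4 * w; linarith) (by show (1 : ℤ) ≤ 3 * w; linarith)
    · exact forall_fin3 (by show (2 : ℤ) ≤ _; nlinarith) (by show 4 * w ≤ (n : ℤ) ^ 2; nlinarith)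
        (by show 3 * w ≤ (n : ℤ) ^ 2; nlinarith)
    · refine forall_fin3 ?_ ?_ ?_
      · show |(1 : ℤ)| ≤ _
        rw [abs_one]; nlinarith
      · show |-((n : ℤ) - 2 * w)| ≤ _
        rw [abs_neg, abs_of_nonneg (by linarith)]; nlinarith
      · show |-((n : ℤ) - 2 * w)| ≤ _
        rw [abs_neg, abs_of_nonneg (by linarith)]; nlinarith
    · have hc : IsCoprime w ((n : ℤ) - 2 * w) := by
        have := c2 ((j - 1 : ℕ) : ℤ)
        rw [Int.toNat_natCast] at this
        exact this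
      have hc2 : IsCoprime (2 : ℤ) ((n : ℤ) - 2 * w) := ⟨-v, 1, by rw [hv]; ring⟩
      have hc3 : IsCoprime (3 : ℤ) ((n : ℤ) - 2 * w) := by
        rw [Int.isCoprime_iff_gcd_eq_one]
        have h5 : Nat.Coprime 3 ((n : ℤ) - 2 * w).natAbs := by
          rw [Nat.Prime.coprime_iff_not_dvd Nat.prime_three]
          intro h6
          apply h3
          exact Int.natCast_dvd.2 h6
        exact h5
      refine forall_fin3 ?_ ?_ ?_
      · show IsCoprime (2 : ℤ) 1
        exact isCoprime_one_right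
      · show IsCoprime (4 * w) (-((n : ℤ) - 2 * w))
        apply IsCoprime.neg_right
        have : (4 : ℤ) * w = 2 * (2 * w) := by ring
        rw [this]
        exact hc2.mul_left (hc2.mul_left hc)
      · show IsCoprime (3 * w) (-((n : ℤ) - 2 * w))
        apply IsCoprime.neg_right
        exact hc3.mul_left hc
    · refine ⟨0, forall_fin3 ?_ ?_ ?_⟩
      · show ¬ (2 : ℤ) ∣ 2 * 0 + 1
        norm_num
      · show ¬ (2 : ℤ) ∣ 4 * w * 0 + -((n : ℤ) - 2 * w)
        rw [mul_zero, zero_add, dvd_neg]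
        omega
      · show ¬ (2 : ℤ) ∣ 3 * w * 0 + -((n : ℤ) - 2 * w)
        rw [mul_zero, zero_add, dvd_neg]
        omega
    · refine ⟨0, forall_fin3 ?_ ?_ ?_⟩
      · show ¬ (3 : ℤ) ∣ 2 * 0 + 1
        norm_num
      · show ¬ (3 : ℤ) ∣ 4 * w * 0 + -((n : ℤ) - 2 * w)
        rw [mul_zero, zero_add, dvd_neg]
        exact h3
      · show ¬ (3 : ℤ) ∣ 3 * w * 0 + -((n : ℤ) - 2 * w)
        rw [mul_zero, zero_add, dvd_neg]
        exact h3
    · intro i i' t ht htU
      have ht' : (1 : ℤ) ≤ t := by exact_mod_cast ht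
      have hwt : 0 < w * t := by positivity
      revert i'
      revert i
      refine forall_fin3 ?_ ?_ ?_
      · refine forall_fin3 ?_ ?_ ?_
        · show (2 : ℤ) = 2 → (1 : ℤ) ≠ 1 + 2 * t
          intro _; omega
        · show (2 : ℤ) = 4 * w → _
          intro h; omega
        · show (2 : ℤ) = 3 * w → _
          intro h; omega
      · refine forall_fin3 ?_ ?_ ?_
        · show 4 * w = 2 → _
          intro h; omega
        · show 4 * w = 4 * w → -((n : ℤ) - 2 * w) ≠ -((n : ℤ) - 2 * w) + 4 * w * t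
          intro _ h
          nlinarith
        · show 4 * w = 3 * w → _
          intro h; omega
      · refine forall_fin3 ?_ ?_ ?_
        · show 3 * w = 2 → _
          intro h; omega
        · show 3 * w = 4 * w → _
          intro h; omega
        · show 3 * w = 3 * w → -((n : ℤ) - 2 * w) ≠ -((n : ℤ) - 2 * w) + 3 * w * t
          intro _ h
          nlinarith

lemma noAs (n j : ℕ) (hf : Fits n j) (U : ℝ) : NoAs (l3 (al j) (be n j)) {n / 2} U := by
  rcases hf with ⟨rfl, he⟩ | ⟨hj, hjn, ho, h3⟩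
  · obtain ⟨m, hm⟩ := he
    have ea : al 0 = ![1, 2, 2] := if_pos rfl
    have eb : be n 0 = ![0, -((n : ℤ) - 1), -(2 * (n : ℤ) - 1)] := if_pos rfl
    rw [ea, eb]
    apply l3_noAs
    · exact forall_fin3 (by norm_num) (by norm_num) (by show (1 : ℤ) ≤ 2; norm_num)
    · intro i i' t ht htE
      rw [mem_singleton] at htE
      have ht' : (1 : ℤ) ≤ t := by exact_mod_cast ht
      revert i'
      revert i
      refine forall_fin3 ?_ ?_ ?_
      · refine forall_fin3 ?_ ?_ ?_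
        · show (1 : ℤ) = 1 → (0 : ℤ) ≠ 0 + 1 * t
          intro _; omega
        · show (1 : ℤ) = 2 → _
          intro h; omega
        · show (1 : ℤ) = 2 → _
          intro h; omega
      · refine forall_fin3 ?_ ?_ ?_
        · show (2 : ℤ) = 1 → _
          intro h; omega
        · show (2 : ℤ) = 2 → -((n : ℤ) - 1) ≠ -((n : ℤ) - 1) + 2 * t
          intro _; omega
        · show (2 : ℤ) = 2 → -((n : ℤ) - 1) ≠ -(2 * (n : ℤ) - 1) + 2 * t
          intro _; omega
      · refine forall_fin3 ?_ ?_ ?_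
        · show (2 : ℤ) = 1 → _
          intro h; omega
        · show (2 : ℤ) = 2 → -(2 * (n : ℤ) - 1) ≠ -((n : ℤ) - 1) + 2 * t
          intro _; omega
        · show (2 : ℤ) = 2 → -(2 * (n : ℤ) - 1) ≠ -(2 * (n : ℤ) - 1) + 2 * t
          intro _; omega
  · have hj0 : j ≠ 0 := by omega
    have ea : al j = ![2, 2 ^ (j + 1), 3 * 2 ^ (j - 1)] := if_neg hj0
    have eb : be n j = ![1, -((n : ℤ) - 2 ^ j), -((n : ℤ) - 2 ^ j)] := if_neg hj0
    obtain ⟨g1, g2, g3, g4⟩ := half_ne j hj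
    rw [ea, eb]
    set w : ℤ := 2 ^ (j - 1) with hw
    rw [g1, g2]
    apply l3_noAs
    · exact forall_fin3 (by norm_num) (by show (1 : ℤ) ≤ 4 * w; linarith) (by show (1 : ℤ) ≤ 3 * w; linarith)
    · intro i i' t ht _
      have ht' : (1 : ℤ) ≤ t := by exact_mod_cast ht
      have hwt : 0 < w * t := by positivity
      revert i'
      revert i
      refine forall_fin3 ?_ ?_ ?_
      · refine forall_fin3 ?_ ?_ ?_
        · show (2 : ℤ) = 2 → (1 : ℤ) ≠ 1 + 2 * t
          intro _; omega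
        · show (2 : ℤ) = 4 * w → _
          intro h; omega
        · show (2 : ℤ) = 3 * w → _
          intro h; omega
      · refine forall_fin3 ?_ ?_ ?_
        · show 4 * w = 2 → _
          intro h; omega
        · show 4 * w = 4 * w → -((n : ℤ) - 2 * w) ≠ -((n : ℤ) - 2 * w) + 4 * w * t
          intro _ h
          nlinarith
        · show 4 * w = 3 * w → _
          intro h; omega
      · refine forall_fin3 ?_ ?_ ?_
        · show 3 * w = 2 → _
          intro h; omega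
        · show 3 * w = 4 * w → _
          intro h; omega
        · show 3 * w = 3 * w → -((n : ℤ) - 2 * w) ≠ -((n : ℤ) - 2 * w) + 3 * w * t
          intro _ h
          nlinarith

lemma half_lt (n : ℕ) (hn : 10 ≤ n) : 2 * ((n : ℝ) ^ (1 / 2 : ℝ)) < n := by
  have hn' : (10 : ℝ) ≤ n := by exact_mod_cast hn
  rw [← Real.sqrt_eq_rpow]
  have hs := Real.sq_sqrt (by linarith : (0 : ℝ) ≤ n)
  have hs1 : (3 : ℝ) ≤ √(n : ℝ) := by
    rw [show (3 : ℝ) = √9 by rw [show (9 : ℝ) = 3 ^ 2 by norm_num, Real.sqrt_sq (by norm_num)]]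
    exact Real.sqrt_le_sqrt (by linarith)
  nlinarith

/-- for `j ≥ 2` all three numbers are odd -/
lemma odd_all (n j x : ℕ) (hj : j ≠ 0) (hf : Fits n j) : ¬ Dv n j 2 x := by
  rcases hf with ⟨h, -⟩ | ⟨hj2, hjn, ho, h3⟩
  · exact absurd h hj
  · obtain ⟨g1, g2, g3, g4⟩ := half_ne j hj2
    unfold Dv kk ll qq
    rw [if_neg hj, if_neg hj, if_neg hj]
    have ho' : Odd (n : ℤ) := by exact_mod_cast ho
    have h2j : Even ((2 : ℤ) ^ j) := by rw [g2]; exact even_two_mul _
    have h2j1 : Even ((2 : ℤ) ^ (j + 1)) := by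
      exact ⟨2 ^ j, by ring⟩
    rintro (h | h | h)
    · have e : Even ((n : ℤ) - 2 ^ j - 2 ^ (j + 1) * x) := by
        rw [even_iff_two_dvd]; exact_mod_cast h
      exact (Int.not_even_iff_odd.2 ((ho'.sub_even h2j).sub_even (h2j1.mul_right _))) e
    · push_cast at h
      omega
    · have e : Even ((n : ℤ) - 2 ^ j - 3 * 2 ^ (j - 1) * x) := by
        rw [even_iff_two_dvd]; exact_mod_cast h
      exact (Int.not_even_iff_odd.2 ((ho'.sub_even h2j).sub_even ((g4.mul_left 3).mul_right _))) e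

lemma De_le (n j : ℕ) (hf : Fits n j) (y : ℕ) : De (Dv n j) y ≤ 4 * Pool.Agent.R490.Sg.D1 y := by
  rcases hf with ⟨rfl, he⟩ | ⟨hj, hjn, ho, h3⟩
  · have h := De_le_D1 (g := Dv n 0) (fun p hp => ⟨0, hp.pos, Or.inr (Or.inr (by
      unfold qq
      simp))⟩) y
    have h0 : 0 ≤ Pool.Agent.R490.Sg.D1 y := by
      unfold Pool.Agent.R490.Sg.D1
      apply Finset.prod_nonneg
      intro p hp
      have hpp : p.Prime := (mem_filter.1 hp).2
      have hp2 : (2 : ℝ) ≤ p := by exact_mod_cast hpp.two_le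
      have h2 : (1 : ℝ) / p ≤ 1 / 2 := one_div_le_one_div_of_le (by norm_num) hp2
      linarith
    linarith
  · have hj0 : j ≠ 0 := by omega
    have h := De_le_a 2 1 (by norm_num) (g := Dv n j) (fun p m hp hd => Or.inr (Or.inl (by
      unfold ll
      rw [if_neg hj0]
      exact_mod_cast hd))) y
    norm_num at h
    exact h

/-! ## the link with the question -/

lemma exists_fits (n : ℕ) (hn : 8 ≤ n) : ∃ j, Fits n j := by
  rcases Nat.even_or_odd n with h | h
  · exact ⟨0, Or.inl ⟨rfl, h⟩⟩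
  · by_cases h1 : n % 3 = 1
    · exact ⟨3, Or.inr ⟨by norm_num, by norm_num; omega, h, by norm_num; omega⟩⟩
    · exact ⟨2, Or.inr ⟨le_rfl, by norm_num; omega, h, by norm_num; omega⟩⟩

/-- if `k` and the odd part of `n - k` are primes, then `q(n, k)` is the third form -/
lemma link (n j x k l : ℕ) (hf : Fits n j) (hk : k.Prime) (hl : l.Prime) (h1 : (k : ℤ) = kk n j x)
    (h2 : (l : ℤ) = ll n j x) :
    1 ≤ k ∧ k + 2 < n ∧ n = k + 2 ^ j * l ∧
      ((k.totient + (n - k).totient / 2 + 1 : ℕ) : ℤ) = qq n j x := by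
  have hk2 := hk.two_le
  have hl2 := hl.two_le
  rcases hf with ⟨rfl, he⟩ | ⟨hj, hjn, ho, h3⟩
  · obtain ⟨m, hm⟩ := he
    unfold kk at h1
    unfold ll at h2
    rw [if_pos rfl] at h1 h2
    have e1 : n = k + l := by omega
    have hlo : 3 ≤ l := by omega
    refine ⟨by omega, by omega, by rw [pow_zero, one_mul]; exact e1, ?_⟩
    have e2 : n - k = l := by omega
    rw [e2, Nat.totient_prime hk, Nat.totient_prime hl]
    unfold qq
    rw [if_pos rfl]
    omega
  · have hj0 : j ≠ 0 := by omega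
    obtain ⟨g1, g2, g3, g4⟩ := half_ne j hj
    unfold kk at h1
    unfold ll at h2
    rw [if_neg hj0] at h1 h2
    have hl' : l = 2 * x + 1 := by omega
    have e1 : n = k + 2 ^ j * l := by
      have : (n : ℤ) = k + 2 ^ j * l := by
        rw [h1, h2]
        ring
      exact_mod_cast this
    have h4 : 4 ≤ 2 ^ j := by
      calc 4 = 2 ^ 2 := by norm_num
        _ ≤ 2 ^ j := Nat.pow_le_pow_right (by norm_num) hj
    refine ⟨by omega, by nlinarith, e1, ?_⟩
    have e2 : n - k = 2 ^ j * l := by omega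
    obtain ⟨i, rfl⟩ : ∃ i, j = i + 2 := ⟨j - 2, by omega⟩
    have hcop : Nat.Coprime (2 ^ (i + 2)) l := by
      apply Nat.Coprime.pow_left
      rw [Nat.coprime_two_left]
      exact ⟨x, hl'⟩
    rw [e2, Nat.totient_mul hcop, Nat.totient_prime hk, Nat.totient_prime hl,
      Nat.totient_prime_pow Nat.prime_two (by omega)]
    have e3 : 2 ^ (i + 2 - 1) * (2 - 1) * (l - 1) / 2 = 2 ^ (i + 1) * x := by
      have : i + 2 - 1 = i + 1 := by omega
      rw [this, hl']
      have e4 : 2 ^ (i + 1) * (2 - 1) * (2 * x + 1 - 1) = 2 * (2 ^ (i + 1) * x) := by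
        rw [Nat.add_sub_cancel]
        ring
      rw [e4]
      exact Nat.mul_div_cancel_left _ (by norm_num)
    rw [e3]
    unfold qq
    rw [if_neg hj0]
    have e5 : i + 2 - 1 = i + 1 := by omega
    rw [e5]
    have e6 : ((k - 1 + 2 ^ (i + 1) * x + 1 : ℕ) : ℤ) = k + 2 ^ (i + 1) * x := by
      have : k - 1 + 2 ^ (i + 1) * x + 1 = k + 2 ^ (i + 1) * x := by omega
      rw [this]
      push_cast
      ring
    rw [e6, h1]
    ring

end Pool.Agent.R251.TS
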